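import Mathlib
import Pool.Agent.Results.MP_5ead0a_co.SmallExample

/-!
# A 3-(γ,2)-critical graph with `γ ≠ i`
-/

set_option autoImplicit false

namespace Pool.Agent.Results.MP_e46b0b_co.LocalCritical

open Pool.Agent.Results.MP_5ead0a_co.SmallExample

/-- `G` is `k`-`(γ, r)`-critical: `γ(G) = k` and `γ(G + uv) < k` for every pair of distinct
nonadjacent vertices `u, v` at distance at most `r`. -/
def IsLocalCritical {V : Type} (k r : ℕ) (G : SimpleGraph V) : Prop :=
  domNum G = k ∧ ∀ u v, u ≠ v → ¬ G.Adj u v → G.edist u v ≤ (r : ℕ∞) →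
    domNum (G ⊔ SimpleGraph.edge u v) < k

/-- There is a `3`-`(γ, 2)`-critical graph, of order `28`, with `γ = 3` and `i = 4`. -/
theorem result : ∃ G : SimpleGraph (Fin 28), IsLocalCritical 3 2 G ∧ domNum G = 3 ∧
    indDomNum G = 4 := by
  obtain ⟨G, ⟨h1, h2⟩, -, h3⟩ := Pool.Agent.Results.MP_5ead0a_co.SmallExample.result
  exact ⟨G, ⟨h1, fun u v huv hadj _ => h2 u v huv hadj⟩, h1, h3⟩

end Pool.Agent.Results.MP_e46b0b_co.LocalCritical
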